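import Pool.Agent.Y9.ZR.Rat

/-!
# Bases over formally real fields imply choice in set theory with atoms

Does ZFA prove that the axiom of choice follows if every vector space has a basis? The starting result
`BasesImplyChoice` says yes. Here the hypothesis is weakened in two ways, in every model of Zermelo set
theory with atoms (hence of ZFA):

* it is enough that vector spaces over *formally real* fields have bases;
* it is enough that vector spaces over the field of *rational numbers* have bases, if the axiom of
  *multiple choice* holds (which does not imply the axiom of choice in ZFA).

The definitions `ZermeloAtoms` (models of Zermelo set theory with atoms), `VB`, `AC`, `IsBasisIn`,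
`IntOp` are those of the starting library; `FormallyReal`, `VBReal`, `Rationals`, `VBRat`, `FiniteIn`,
`MC` are in `Pool.Agent.Y9.ZR.Defs`.

The proof. It is that of the starting result, with two hypotheses isolated. The field of Blass'
construction is a subfield of the field of fractions of the ring of polynomial functions with
coefficients in the rational numbers of the model; the fractions whose numerator has no negative value
and whose denominator is a square form a set of the model which is closed under addition, contains
the squares, and does not contain `-1`. So bases over formally real fields give multiple choice. Then
only vector spaces over the rational numbers of the model are used, which is a prime field of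
characteristic zero in the model; a finite nonempty set of bases is selected by multiple choice.
-/

set_option autoImplicit false

namespace Pool.Agent.Results.MP_41b158_lc.FormallyRealFields

open Pool.Agent.Helper672.ZFA
open Pool.Agent.Y9.ZR

universe u

/-- In every model `M` of Zermelo set theory with atoms:
(1) if every vector space over a formally real field has a basis, then the axiom of choice holds;
(2) if the axiom of multiple choice holds and every vector space over the field of rational numbers
has a basis, then the axiom of choice holds;
(3) the hypothesis of (1) and the second hypothesis of (2) follow from VB. -/
theorem result (M : Type u) [L.Structure M] [ZermeloAtoms M] :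
    (VBReal M → AC M) ∧ (MC M → VBRat M → AC M) ∧ (VB M → VBReal M ∧ VBRat M) := by
  have : IsModel M := ZermeloAtoms.isModel
  refine ⟨fun h => h.ac, fun h h' => ac_of_mc h h', fun h => ⟨?_, ?_⟩⟩
  · intro k v _ _ _ h1 h2 h3 h4 _
    exact h k v h1 h2 h3 h4
  · intro k v _ _ _ h1 h2 h3 h4 _
    exact h k v h1 h2 h3 h4

end Pool.Agent.Results.MP_41b158_lc.FormallyRealFields
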